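import Mathlib

/-!
# ccs Delta-points in l_infty-sums of Banach spaces

If `x` is a ccs Delta-point of `X` and `y` is a ccs Delta-point of `Y`, and `a, b` lie in `[0,1]` with
`max a b = 1`, then `(a x, b y)` is a ccs Delta-point of the l_infty-sum `X × Y` (Mathlib's product
norm is the maximum norm).
-/

set_option autoImplicit false

namespace Pool.Agent.Results.MP_c457a4_an.LinftySum

open Set

/-- The slice `S(f, α)` of the closed unit ball of `X`: all `z` with `‖z‖ ≤ 1` and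
`Re f(z) > 1 - α`. -/
def slice (𝕜 : Type*) [RCLike 𝕜] {X : Type*} [NormedAddCommGroup X] [NormedSpace 𝕜 X]
    (f : X →L[𝕜] 𝕜) (α : ℝ) : Set X :=
  {z : X | ‖z‖ ≤ 1 ∧ 1 - α < RCLike.re (f z)}

/-- `IsSlice 𝕜 S`: the set `S` is a slice of the closed unit ball, i.e. `S = S(f, α)` for some
`f` in the unit sphere of the dual and some `α > 0`. -/
def IsSlice (𝕜 : Type*) [RCLike 𝕜] {X : Type*} [NormedAddCommGroup X] [NormedSpace 𝕜 X]
    (S : Set X) : Prop :=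
  ∃ (f : X →L[𝕜] 𝕜) (α : ℝ), ‖f‖ = 1 ∧ 0 < α ∧ S = slice 𝕜 f α

/-- `IsCCS 𝕜 C`: the set `C` is a convex combination of slices of the closed unit ball:
`C = {∑ i, t i • z i : z i ∈ S i}` with `n ≥ 1`, slices `S i`, `t i ≥ 0` and `∑ i, t i = 1`. -/
def IsCCS (𝕜 : Type*) [RCLike 𝕜] {X : Type*} [NormedAddCommGroup X] [NormedSpace 𝕜 X]
    (C : Set X) : Prop :=
  ∃ (n : ℕ) (t : Fin n → ℝ) (S : Fin n → Set X), 1 ≤ n ∧ (∀ i, 0 ≤ t i) ∧ (∑ i, t i = 1) ∧
    (∀ i, IsSlice 𝕜 (S i)) ∧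
    C = {w : X | ∃ z : Fin n → X, (∀ i, z i ∈ S i) ∧ w = ∑ i, ((t i : ℝ) : 𝕜) • z i}

/-- `x` is a ccs Delta-point: `‖x‖ = 1` and `sup_{z ∈ C} ‖x - z‖ = 2` for every convex combination
of slices `C` of the closed unit ball that contains `x`. -/
def IsCCSDeltaPoint (𝕜 : Type*) [RCLike 𝕜] {X : Type*} [NormedAddCommGroup X] [NormedSpace 𝕜 X]
    (x : X) : Prop :=
  ‖x‖ = 1 ∧ ∀ C : Set X, IsCCS 𝕜 C → x ∈ C → sSup ((fun z : X => ‖x - z‖) '' C) = 2

section Aux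

variable {𝕜 : Type*} [RCLike 𝕜]
variable {X : Type*} [NormedAddCommGroup X] [NormedSpace 𝕜 X]
variable {Y : Type*} [NormedAddCommGroup Y] [NormedSpace 𝕜 Y]
variable {Z : Type*} [NormedAddCommGroup Z] [NormedSpace 𝕜 Z]

/-- Real parts of the values of `f` on the unit ball come arbitrarily close to `‖f‖`. -/
theorem exists_re_gt (f : X →L[𝕜] 𝕜) {c : ℝ} (hc : c < ‖f‖) :
    ∃ u : X, ‖u‖ ≤ 1 ∧ c < RCLike.re (f u) := by
  rcases lt_or_ge c 0 with h0 | h0
  · exact ⟨0, by simp, by simpa using h0⟩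
  · lift c to NNReal using h0
    obtain ⟨x, hx1, hx2⟩ := f.exists_lt_apply_of_lt_opNNNorm (r := c) (by exact_mod_cast hc)
    have hx2' : (c : ℝ) < ‖f x‖ := by exact_mod_cast hx2
    have hx1' : ‖x‖ < 1 := by exact_mod_cast hx1
    have hpos : 0 < ‖f x‖ := lt_of_le_of_lt c.2 hx2'
    have hne : f x ≠ 0 := norm_pos_iff.mp hpos
    refine ⟨((starRingEnd 𝕜 (f x)) / (‖f x‖ : 𝕜)) • x, ?_, ?_⟩
    · rw [norm_smul, norm_div, RCLike.norm_conj, RCLike.norm_ofReal, abs_of_pos hpos,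
        div_self hpos.ne', one_mul]
      exact hx1'.le
    · rw [map_smul, smul_eq_mul, div_mul_eq_mul_div, RCLike.conj_mul]
      have : ((‖f x‖ : 𝕜) ^ 2 / (‖f x‖ : 𝕜)) = ((‖f x‖ : ℝ) : 𝕜) := by
        have hne' : (‖f x‖ : 𝕜) ≠ 0 := by exact_mod_cast hpos.ne'
        field_simp
      rw [this, RCLike.ofReal_re]
      exact hx2'

/-- On the unit ball the real part of `f` is at most `‖f‖`. -/
theorem re_le_norm (f : X →L[𝕜] 𝕜) {u : X} (hu : ‖u‖ ≤ 1) : RCLike.re (f u) ≤ ‖f‖ :=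
  (RCLike.re_le_norm _).trans ((f.le_opNorm u).trans (by
    have := mul_le_mul_of_nonneg_left hu (norm_nonneg f); simpa using this))

theorem neg_norm_le_re (f : X →L[𝕜] 𝕜) {u : X} (hu : ‖u‖ ≤ 1) : -‖f‖ ≤ RCLike.re (f u) := by
  have h := re_le_norm f (u := -u) (by simpa using hu)
  simp only [map_neg] at h
  linarith

/-- The one-coordinate description of a projected slice is a slice. -/
theorem isSlice_aux (f₁ : X →L[𝕜] 𝕜) (f₂ : Y →L[𝕜] 𝕜) (hf : ‖f₁‖ + ‖f₂‖ = 1)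
    (hX : ∃ x : X, ‖x‖ = 1) {α : ℝ} (hα : 0 < α) :
    IsSlice 𝕜 {u : X | ‖u‖ ≤ 1 ∧ ∃ v : Y, ‖v‖ ≤ 1 ∧
      1 - α < RCLike.re (f₁ u) + RCLike.re (f₂ v)} := by
  have key : {u : X | ‖u‖ ≤ 1 ∧ ∃ v : Y, ‖v‖ ≤ 1 ∧
      1 - α < RCLike.re (f₁ u) + RCLike.re (f₂ v)} =
      {u : X | ‖u‖ ≤ 1 ∧ ‖f₁‖ - α < RCLike.re (f₁ u)} := by
    ext u
    constructor
    · rintro ⟨hu, v, hv, h⟩
      refine ⟨hu, ?_⟩
      have := re_le_norm f₂ hv
      linarith
    · rintro ⟨hu, h⟩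
      refine ⟨hu, ?_⟩
      obtain ⟨v, hv, hv'⟩ := exists_re_gt f₂ (c := 1 - α - RCLike.re (f₁ u)) (by linarith)
      exact ⟨v, hv, by linarith⟩
  rw [key]
  by_cases h0 : f₁ = 0
  · obtain ⟨x, hx⟩ := hX
    obtain ⟨g, hg, -⟩ := exists_dual_vector 𝕜 x (by rw [hx]; exact one_ne_zero)
    refine ⟨g, 3, hg, by norm_num, ?_⟩
    ext u
    simp only [h0, slice, mem_ofPred_eq, norm_zero, zero_sub, zero_apply,
      map_zero, Left.neg_neg_iff, hα, and_true]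
    constructor
    · intro hu
      refine ⟨hu, ?_⟩
      have := neg_norm_le_re g hu
      rw [hg] at this
      linarith
    · exact fun h => h.1
  · have hpos : 0 < ‖f₁‖ := norm_pos_iff.mpr h0
    refine ⟨((‖f₁‖⁻¹ : ℝ) : 𝕜) • f₁, α / ‖f₁‖, ?_, by positivity, ?_⟩
    · rw [norm_smul, RCLike.norm_ofReal, abs_of_pos (by positivity), inv_mul_cancel₀ hpos.ne']
    · ext u
      simp only [slice, mem_ofPred_eq, smul_apply, smul_eq_mul,
        RCLike.re_ofReal_mul]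
      have h1 : 1 - α / ‖f₁‖ = ‖f₁‖⁻¹ * (‖f₁‖ - α) := by
        field_simp
      rw [h1, mul_lt_mul_iff_right₀ (by positivity)]

/-- For a functional on the maximum-norm product, the norms of the two partial functionals add up
to the norm. -/
theorem norm_inl_add_norm_inr (g : X × Y →L[𝕜] 𝕜) :
    ‖g.comp (ContinuousLinearMap.inl 𝕜 X Y)‖ + ‖g.comp (ContinuousLinearMap.inr 𝕜 X Y)‖ = ‖g‖ := by
  set f₁ := g.comp (ContinuousLinearMap.inl 𝕜 X Y) with hf₁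
  set f₂ := g.comp (ContinuousLinearMap.inr 𝕜 X Y) with hf₂
  have happ : ∀ (u : X) (v : Y), g (u, v) = f₁ u + f₂ v := by
    intro u v
    simp only [hf₁, hf₂, ContinuousLinearMap.comp_apply, ContinuousLinearMap.inl_apply,
      ContinuousLinearMap.inr_apply, ← map_add, Prod.mk_add_mk, add_zero, zero_add]
  apply le_antisymm
  · apply le_of_forall_pos_lt_add
    intro ε hε
    obtain ⟨u, hu, hu'⟩ := exists_re_gt f₁ (c := ‖f₁‖ - ε / 2) (by linarith)
    obtain ⟨v, hv, hv'⟩ := exists_re_gt f₂ (c := ‖f₂‖ - ε / 2) (by linarith)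
    have h1 : RCLike.re (g (u, v)) ≤ ‖g‖ :=
      re_le_norm g (by rw [Prod.norm_def]; exact max_le hu hv)
    rw [happ, map_add] at h1
    linarith
  · refine ContinuousLinearMap.opNorm_le_bound _ (by positivity) ?_
    rintro ⟨u, v⟩
    rw [happ, add_mul]
    refine (norm_add_le _ _).trans (add_le_add ?_ ?_)
    · exact (f₁.le_opNorm u).trans (mul_le_mul_of_nonneg_left (norm_fst_le (u, v)) (norm_nonneg _))
    · exact (f₂.le_opNorm v).trans (mul_le_mul_of_nonneg_left (norm_snd_le (u, v)) (norm_nonneg _))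

theorem apply_mk (g : X × Y →L[𝕜] 𝕜) (u : X) (v : Y) :
    g (u, v) = (g.comp (ContinuousLinearMap.inl 𝕜 X Y)) u +
      (g.comp (ContinuousLinearMap.inr 𝕜 X Y)) v := by
  simp only [ContinuousLinearMap.comp_apply, ContinuousLinearMap.inl_apply,
    ContinuousLinearMap.inr_apply, ← map_add, Prod.mk_add_mk, add_zero, zero_add]

/-- Projections to the first coordinate map slices to slices. -/
theorem isSlice_image_fst (hX : ∃ x : X, ‖x‖ = 1) {S : Set (X × Y)} (hS : IsSlice 𝕜 S) :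
    IsSlice 𝕜 (ContinuousLinearMap.fst 𝕜 X Y '' S) := by
  obtain ⟨g, α, hg, hα, rfl⟩ := hS
  have h := isSlice_aux (g.comp (ContinuousLinearMap.inl 𝕜 X Y))
    (g.comp (ContinuousLinearMap.inr 𝕜 X Y)) (by rw [norm_inl_add_norm_inr, hg]) hX hα
  convert h using 1
  ext u
  simp only [mem_image, mem_ofPred_eq, slice]
  constructor
  · rintro ⟨⟨u', v⟩, ⟨hn, hr⟩, rfl⟩
    rw [Prod.norm_def] at hn
    rw [apply_mk, map_add] at hr
    exact ⟨(le_max_left _ _).trans hn, v, (le_max_right _ _).trans hn, hr⟩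
  · rintro ⟨hu, v, hv, hr⟩
    refine ⟨(u, v), ⟨?_, ?_⟩, rfl⟩
    · rw [Prod.norm_def]; exact max_le hu hv
    · rw [apply_mk, map_add]; exact hr

/-- Projections to the second coordinate map slices to slices. -/
theorem isSlice_image_snd (hY : ∃ y : Y, ‖y‖ = 1) {S : Set (X × Y)} (hS : IsSlice 𝕜 S) :
    IsSlice 𝕜 (ContinuousLinearMap.snd 𝕜 X Y '' S) := by
  obtain ⟨g, α, hg, hα, rfl⟩ := hS
  have h := isSlice_aux (g.comp (ContinuousLinearMap.inr 𝕜 X Y))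
    (g.comp (ContinuousLinearMap.inl 𝕜 X Y)) (by rw [add_comm, norm_inl_add_norm_inr, hg]) hY hα
  convert h using 1
  ext v
  simp only [mem_image, mem_ofPred_eq, slice]
  constructor
  · rintro ⟨⟨u, v'⟩, ⟨hn, hr⟩, rfl⟩
    rw [Prod.norm_def] at hn
    rw [apply_mk, map_add, add_comm] at hr
    exact ⟨(le_max_right _ _).trans hn, u, (le_max_left _ _).trans hn, hr⟩
  · rintro ⟨hv, u, hu, hr⟩
    refine ⟨(u, v), ⟨?_, ?_⟩, rfl⟩
    · rw [Prod.norm_def]; exact max_le hu hv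
    · rw [apply_mk, map_add, add_comm]; exact hr

/-- Points of a convex combination of slices lie in the closed unit ball. -/
theorem norm_le_one_of_mem_ccs {C : Set X} (hC : IsCCS 𝕜 C) {w : X} (hw : w ∈ C) : ‖w‖ ≤ 1 := by
  obtain ⟨n, t, S, -, ht0, ht1, hS, rfl⟩ := hC
  obtain ⟨z, hz, rfl⟩ := hw
  calc ‖∑ i, ((t i : ℝ) : 𝕜) • z i‖ ≤ ∑ i, ‖((t i : ℝ) : 𝕜) • z i‖ := norm_sum_le _ _
    _ ≤ ∑ i, t i := by
        refine Finset.sum_le_sum fun i _ => ?_
        rw [norm_smul, RCLike.norm_ofReal, abs_of_nonneg (ht0 i)]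
        have : ‖z i‖ ≤ 1 := by
          obtain ⟨f, α, -, -, hSi⟩ := hS i
          have := hz i
          rw [hSi] at this
          exact this.1
        calc t i * ‖z i‖ ≤ t i * 1 := mul_le_mul_of_nonneg_left this (ht0 i)
          _ = t i := mul_one _
    _ = 1 := ht1

/-- If a norm-one-bounded linear map `P : Z → X` maps slices to slices, then a norm-one point whose
image is a ccs Delta-point is a ccs Delta-point. -/
theorem isCCSDeltaPoint_of_proj (P : Z →L[𝕜] X) (hP : ∀ z, ‖P z‖ ≤ ‖z‖)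
    (hS : ∀ S : Set Z, IsSlice 𝕜 S → IsSlice 𝕜 (P '' S)) {z₀ : Z} (hz₀ : ‖z₀‖ = 1)
    (hx : IsCCSDeltaPoint 𝕜 (P z₀)) : IsCCSDeltaPoint 𝕜 z₀ := by
  refine ⟨hz₀, fun C hC hmem => ?_⟩
  have hball : ∀ w ∈ C, ‖z₀ - w‖ ≤ 2 := fun w hw =>
    (norm_sub_le _ _).trans (by have := norm_le_one_of_mem_ccs hC hw; linarith)
  have hbdd : BddAbove ((fun z : Z => ‖z₀ - z‖) '' C) :=
    ⟨2, by rintro _ ⟨w, hw, rfl⟩; exact hball w hw⟩
  have hne : C.Nonempty := ⟨z₀, hmem⟩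
  apply le_antisymm
  · exact csSup_le (hne.image _) (by rintro _ ⟨w, hw, rfl⟩; exact hball w hw)
  · have hPC : IsCCS 𝕜 (P '' C) := by
      obtain ⟨n, t, S, hn, ht0, ht1, hSl, rfl⟩ := hC
      refine ⟨n, t, fun i => P '' S i, hn, ht0, ht1, fun i => hS _ (hSl i), ?_⟩
      ext w
      simp only [mem_image, mem_ofPred_eq]
      constructor
      · rintro ⟨_, ⟨z, hz, rfl⟩, rfl⟩
        refine ⟨fun i => P (z i), fun i => ⟨z i, hz i, rfl⟩, ?_⟩
        rw [map_sum]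
        simp only [map_smul]
      · rintro ⟨z', hz', rfl⟩
        choose z hz hz'' using hz'
        refine ⟨∑ i, ((t i : ℝ) : 𝕜) • z i, ⟨z, hz, rfl⟩, ?_⟩
        rw [map_sum]
        simp only [map_smul, hz'']
    have h2 := hx.2 (P '' C) hPC (mem_image_of_mem _ hmem)
    rw [← h2]
    refine csSup_le ((hne.image _).image _) ?_
    rintro _ ⟨_, ⟨w, hw, rfl⟩, rfl⟩
    calc ‖P z₀ - P w‖ = ‖P (z₀ - w)‖ := by rw [map_sub]
      _ ≤ ‖z₀ - w‖ := hP _
      _ ≤ _ := le_csSup hbdd ⟨w, hw, rfl⟩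

end Aux

/-- **The l_infty-sum question for ccs Delta-points has a positive answer.**  For all Banach spaces
`X`, `Y` over `𝕜 = ℝ` or `ℂ`, all ccs Delta-points `x` of `X` and `y` of `Y` and all
`a, b ∈ [0,1]` with `max a b = 1`, the element `(a x, b y)` is a ccs Delta-point of the
l_infty-sum `X × Y`. -/
theorem result {𝕜 : Type*} [RCLike 𝕜]
    {X : Type*} [NormedAddCommGroup X] [NormedSpace 𝕜 X] [CompleteSpace X]
    {Y : Type*} [NormedAddCommGroup Y] [NormedSpace 𝕜 Y] [CompleteSpace Y]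
    {x : X} {y : Y} (hx : IsCCSDeltaPoint 𝕜 x) (hy : IsCCSDeltaPoint 𝕜 y)
    {a b : ℝ} (ha : a ∈ Set.Icc (0 : ℝ) 1) (hb : b ∈ Set.Icc (0 : ℝ) 1) (hab : max a b = 1) :
    IsCCSDeltaPoint 𝕜 (((a : 𝕜) • x, (b : 𝕜) • y) : X × Y) := by
  have hna : ‖(a : 𝕜) • x‖ = a := by
    rw [norm_smul, RCLike.norm_ofReal, abs_of_nonneg ha.1, hx.1, mul_one]
  have hnb : ‖(b : 𝕜) • y‖ = b := by
    rw [norm_smul, RCLike.norm_ofReal, abs_of_nonneg hb.1, hy.1, mul_one]
  have hnorm : ‖(((a : 𝕜) • x, (b : 𝕜) • y) : X × Y)‖ = 1 := by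
    rw [Prod.norm_def]; simp only [hna, hnb, hab]
  rcases max_choice a b with h | h
  · have ha1 : a = 1 := by rw [← h, hab]
    refine isCCSDeltaPoint_of_proj (ContinuousLinearMap.fst 𝕜 X Y) (fun z => norm_fst_le z)
      (fun S hS => isSlice_image_fst ⟨x, hx.1⟩ hS) hnorm ?_
    simpa [ha1] using hx
  · have hb1 : b = 1 := by rw [← h, hab]
    refine isCCSDeltaPoint_of_proj (ContinuousLinearMap.snd 𝕜 X Y) (fun z => norm_snd_le z)
      (fun S hS => isSlice_image_snd ⟨y, hy.1⟩ hS) hnorm ?_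
    simpa [hb1] using hy

end Pool.Agent.Results.MP_c457a4_an.LinftySum
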